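import Pool.Agent.H2.SYM.ORB

/-!
Gap-SETH for symmetric circuits: module COL (flips and permutations of the variables).
-/

set_option autoImplicit false

namespace Pool.Agent.H2.SYM

open Finset
open Pool.Agent.H60.SYM

theorem toB_zero : toB 0 = false := by decide

theorem toB_add (x y : ZMod 2) : toB (x + y) = xor (toB x) (toB y) := by
  revert x y
  decide

/-- the functional `F ↦ ∑_{v ∈ A} F v` -/
def sumF {n : ℕ} (A : Finset (Fin n)) : (Fin n → ZMod 2) →ₗ[ZMod 2] ZMod 2 :=
  ∑ v ∈ A, LinearMap.proj v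

theorem sumF_apply {n : ℕ} (A : Finset (Fin n)) (F : Fin n → ZMod 2) :
    sumF A F = ∑ v ∈ A, F v := by
  unfold sumF
  rw [LinearMap.sum_apply]
  rfl

theorem sumF_injective {n : ℕ} : Function.Injective (sumF (n := n)) := by
  intro A A' h
  ext v
  have h1 := LinearMap.congr_fun h (Pi.single v 1)
  rw [sumF_apply, sumF_apply] at h1
  have h2 : ∀ B : Finset (Fin n), ∑ w ∈ B, (Pi.single v (1 : ZMod 2) : Fin n → ZMod 2) w =
      if v ∈ B then 1 else 0 := by
    intro B
    rw [← Finset.sum_ite_eq B v (fun _ => (1 : ZMod 2))]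
    refine Finset.sum_congr rfl fun w _ => ?_
    rw [Pi.single_apply]
    by_cases hw : w = v
    · rw [if_pos hw, if_pos hw.symm]
    · rw [if_neg hw, if_neg (fun h => hw h.symm)]
  rw [h2, h2] at h1
  by_cases hA : v ∈ A
  · rw [if_pos hA] at h1
    by_cases hA' : v ∈ A'
    · exact ⟨fun _ => hA', fun _ => hA⟩
    · rw [if_neg hA'] at h1
      exact absurd h1 (by decide)
  · rw [if_neg hA] at h1
    by_cases hA' : v ∈ A'
    · rw [if_pos hA'] at h1
      exact absurd h1 (by decide)
    · exact ⟨fun h => absurd h hA, fun h => absurd h hA'⟩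

theorem exists_perm {n : ℕ} (A A' : Finset (Fin n)) (h : A.card = A'.card) :
    ∃ τ : Equiv.Perm (Fin n), ∀ v, v ∈ A ↔ τ v ∈ A' := by
  classical
  let e : {x // x ∈ A} ≃ {x // x ∈ A'} := Finset.equivOfCardEq h
  refine ⟨e.extendSubtype, fun v => ⟨fun hv => e.extendSubtype_mem v hv, fun hv => ?_⟩⟩
  by_contra hc
  exact e.extendSubtype_not_mem v hc hv

theorem col (hORB : T_ORB) (hAUT : T_AUT) : T_COL := by
  classical
  intro m n s C hsym g A hg
  obtain ⟨hA1, hA2, hA3, _⟩ := hAUT (Pos m n) s C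
  have hia : ∀ (a : Equiv.Perm (Fin s)) (x : Fin s), a⁻¹ (a x) = x := fun a x =>
    a.symm_apply_apply x
  let L : (Fin n → ZMod 2) → Equiv.Perm (Fin s) → Prop := fun F a =>
    C.Extends (move 1 1 fun v => toB (F v)) a
  have hmove : ∀ F F' : Fin n → ZMod 2, (move (m := m) 1 1 fun v => toB (F v)) ∘
      (move 1 1 fun v => toB (F' v)) = move 1 1 fun v => toB ((F + F') v) := by
    intro F F'
    funext ⟨j, v, b⟩
    simp only [Function.comp, move, Equiv.Perm.one_apply, Pi.add_apply, toB_add, Bool.xor_assoc]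
  have h0 : (move (m := m) (n := n) 1 1 fun v => toB ((0 : Fin n → ZMod 2) v)) = fun i => i := by
    funext ⟨j, v, b⟩
    simp only [move, Equiv.Perm.one_apply, Pi.zero_apply, toB_zero, Bool.false_xor]
  have hΩ : (((univ : Finset (Fin n)).powersetCard A.card).image sumF).card = n.choose A.card := by
    rw [Finset.card_image_of_injective _ sumF_injective, Finset.card_powersetCard,
      Finset.card_univ, Fintype.card_fin]
  rw [← hΩ]
  refine hORB s (Fin n → ZMod 2) L ?_ ?_ ?_ ?_ _ ?_
  · change C.Extends (move 1 1 fun v => toB ((0 : Fin n → ZMod 2) v)) 1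
    rw [h0]
    exact hA1
  · intro v w a b ha hb
    change C.Extends (move 1 1 fun x => toB ((v + w) x)) (a * b)
    rw [← hmove]
    exact hA2 _ _ _ _ ha hb
  · intro v a ha
    refine hA3 _ _ a (fun i => ?_) ha
    have h1 := congrFun (hmove v v) i
    have h2 : v + v = 0 := by
      nth_rw 1 [← neg_eq_self2 v]
      exact neg_add_cancel v
    rw [h2, h0] at h1
    exact h1
  · intro v
    exact hsym 1 1 _
  · intro ω hω
    obtain ⟨A', hA', rfl⟩ := mem_image.1 hω
    have hcard : A.card = A'.card := (mem_powersetCard.1 hA').2.symm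
    obtain ⟨τ, hτ⟩ := exists_perm A A' hcard
    obtain ⟨b, hb⟩ := hsym 1 τ (fun _ => false)
    refine ⟨b g, fun F a' ha' hfix => ?_⟩
    have hbinv : C.Extends (move 1 τ⁻¹ fun _ => false) b⁻¹ := by
      refine hA3 (move 1 τ fun _ => false) _ b (fun i => ?_) hb
      obtain ⟨j, v, c⟩ := i
      simp only [move, Equiv.Perm.one_apply, Bool.false_xor]
      rw [show τ⁻¹ (τ v) = v from τ.symm_apply_apply v]
    have h1 := hA2 _ _ _ _ (hA2 _ _ _ _ hbinv ha') hb
    have h2 : ((move (m := m) 1 τ⁻¹ fun _ => false) ∘ move 1 1 fun v => toB (F v)) ∘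
        (move 1 τ fun _ => false) = move 1 1 fun v => toB ((F ∘ τ) v) := by
      funext ⟨j, v, c⟩
      simp only [Function.comp, move, Equiv.Perm.one_apply, Bool.false_xor]
      rw [show τ⁻¹ (τ v) = v from τ.symm_apply_apply v]
    rw [h2] at h1
    have h3 := hg (F ∘ τ) _ h1 (by
      rw [Equiv.Perm.mul_apply, Equiv.Perm.mul_apply, hfix, hia])
    rw [sumF_apply, ← h3]
    exact (Finset.sum_equiv τ hτ fun v _ => rfl).symm

end Pool.Agent.H2.SYM
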