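import Pool.Agent.H2.SYM.COL

/-!
Gap-SETH for symmetric circuits: module GAP (no condition of medium weight at any gate).
-/

set_option autoImplicit false

namespace Pool.Agent.H2.SYM

open Finset
open Pool.Agent.H60.SYM

theorem rowPerm_zero {m d : ℕ} {B P : Type} (E : Fin m ≃ (B × (Fin d → ZMod 2)) ⊕ P) :
    rowPerm E (0 : B → Fin d → ZMod 2) = 1 := by
  ext1 j
  unfold rowPerm
  simp only [Equiv.trans_apply, Equiv.sumCongr_apply, Equiv.Perm.one_apply]
  rw [Equiv.symm_apply_eq]
  rcases E j with ⟨b, z⟩ | p
  · simp [Equiv.prodShear]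
  · simp

/-- the coefficients of the linear form on the variables -/
def coefB {n d M T : ℕ} (e : Fin M → Fin (d + 1) → Fin n) (r : Blocks M T → Fin d → ZMod 2)
    (v : Fin n) : ZMod 2 :=
  ∑ b : Blocks M T, ∑ p : Fin d, if e b.1 p.succ = v then r b p else 0

theorem sum_ite_mul {n : ℕ} (w : Fin n) (c : ZMod 2) (F : Fin n → ZMod 2) :
    ∑ v, (if w = v then c else 0) * F v = c * F w := by
  rw [Finset.sum_eq_single w]
  · rw [if_pos rfl]
  · intro v _ hv
    rw [if_neg (fun h => hv h.symm), zero_mul]
  · intro h
    exact absurd (mem_univ w) h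

theorem NN_zero_left {n d M T : ℕ} (e : Fin M → Fin (d + 1) → Fin n) (y : YY d M T)
    (F : Fin n → ZMod 2) :
    NN e y ((0, F) : VV n d M T) = ∑ v, (comb e y.1 v + coefB e y.2 v) * F v := by
  unfold NN comb coefB
  simp only [add_mul, Finset.sum_add_distrib, Finset.sum_mul, Pi.zero_apply, zero_add]
  congr 1
  · symm
    rw [Finset.sum_comm]
    refine Finset.sum_congr rfl fun i _ => ?_
    rw [Finset.sum_comm]
    refine Finset.sum_congr rfl fun p _ => ?_
    rw [sum_ite_mul]
  · symm
    rw [Finset.sum_comm]
    refine Finset.sum_congr rfl fun i _ => ?_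
    rw [Finset.sum_comm]
    refine Finset.sum_congr rfl fun p _ => ?_
    rw [sum_ite_mul]

theorem NN_zero_right {n d M T : ℕ} (e : Fin M → Fin (d + 1) → Fin n) (y : YY d M T)
    (κ : Blocks M T → Fin d → ZMod 2) :
    NN e y ((κ, 0) : VV n d M T) = ∑ b, ∑ p, y.2 b p * κ b p := by
  unfold NN
  simp only [Pi.zero_apply, mul_zero, Finset.sum_const_zero, zero_add, add_zero]

theorem gap (hROW : T_ROW) (hCOL : T_COL) : T_GAP := by
  classical
  intro m n s d M T P e E C θ q t₁ t₂ hsym h1 h2 h3 g y hy1 hy2
  by_contra hc
  push Not at hc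
  have hwy : wy y = wt y.1 + (univ.filter fun b => y.2 b ≠ 0).card := by
    unfold wy
    congr 2
  set D := (univ.filter fun b => y.2 b ≠ 0).card with hD
  by_cases hq : q ≤ D
  · -- many blocks
    have hr := hROW m n s d (Blocks M T) P E C hsym g y.2 (by
      intro κ a ha hag
      have h4 := hc ((κ, 0) : VV n d M T) a (by
        have : act E ((κ, 0) : VV n d M T) = move (rowPerm E κ) 1 fun _ => false := by
          unfold act
          simp only [Pi.zero_apply, toB_zero]
        rw [this]
        exact ha) hag
      rw [NN_zero_right] at h4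
      exact h4)
    have hcard : Fintype.card (Blocks M T) = M * T := by
      rw [Fintype.card_prod, Fintype.card_fin, Fintype.card_fin]
    have hD' : (univ.filter fun b => y.2 b ≠ 0).card = D := rfl
    rw [hcard] at hr
    have h5 := h2 D hq (by omega)
    have h6 : (M * T).choose D ≤ s := by
      refine le_trans (le_of_eq ?_) hr
      congr 1
    omega
  · -- few blocks
    push Not at hq
    obtain ⟨h4, h5⟩ := h3 y.1 (by omega) (by omega)
    set A : Finset (Fin n) := univ.filter fun v => comb e y.1 v + coefB e y.2 v ≠ 0 with hA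
    have hcol := hCOL m n s C hsym g A (by
      intro F a ha hag
      have h6 := hc ((0, F) : VV n d M T) a (by
        have : act E ((0, F) : VV n d M T) = move 1 1 fun v => toB (F v) := by
          unfold act
          rw [rowPerm_zero]
        rw [this]
        exact ha) hag
      rw [NN_zero_left] at h6
      rw [← h6, hA, Finset.sum_filter]
      refine Finset.sum_congr rfl fun v _ => ?_
      rcases zmod2_cases (comb e y.1 v + coefB e y.2 v) with h7 | h7
      · rw [h7, zero_mul, if_neg (by simp)]
      · rw [h7, one_mul, if_pos (by decide)])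
    -- the size of the second part
    have hB : (univ.filter fun v => coefB e y.2 v ≠ 0).card ≤ d * q := by
      have hsub : (univ.filter fun v => coefB e y.2 v ≠ 0) ⊆
          ((univ.filter fun b => y.2 b ≠ 0) ×ˢ (univ : Finset (Fin d))).image
            fun bp => e bp.1.1 bp.2.succ := by
        intro v hv
        have hv2 := (mem_filter.1 hv).2
        rw [mem_image]
        by_contra hcon
        push Not at hcon
        refine hv2 ?_
        unfold coefB
        refine Finset.sum_eq_zero fun b _ => Finset.sum_eq_zero fun p _ => ?_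
        by_cases hb : y.2 b = 0
        · rw [hb]
          simp
        · rw [if_neg]
          exact hcon (b, p) (mem_product.2 ⟨mem_filter.2 ⟨mem_univ _, hb⟩, mem_univ _⟩)
      calc (univ.filter fun v => coefB e y.2 v ≠ 0).card
          ≤ (((univ.filter fun b => y.2 b ≠ 0) ×ˢ (univ : Finset (Fin d))).image
            fun bp => e bp.1.1 bp.2.succ).card := Finset.card_le_card hsub
        _ ≤ ((univ.filter fun b => y.2 b ≠ 0) ×ˢ (univ : Finset (Fin d))).card :=
            Finset.card_image_le
        _ = D * d := by rw [Finset.card_product, Finset.card_univ, Fintype.card_fin]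
        _ ≤ d * q := by
            rw [mul_comm]
            exact Nat.mul_le_mul_left d hq.le
    have hu1 : wt (comb e y.1) ≤ A.card + (univ.filter fun v => coefB e y.2 v ≠ 0).card := by
      unfold wt
      refine (Finset.card_le_card ?_).trans (Finset.card_union_le _ _)
      intro v hv
      have hv2 := (mem_filter.1 hv).2
      by_cases hb : coefB e y.2 v = 0
      · refine mem_union_left _ ?_
        rw [hA, mem_filter, hb, add_zero]
        exact ⟨mem_univ _, hv2⟩
      · exact mem_union_right _ (mem_filter.2 ⟨mem_univ _, hb⟩)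
    have hu2 : A.card ≤ wt (comb e y.1) + (univ.filter fun v => coefB e y.2 v ≠ 0).card := by
      unfold wt
      refine (Finset.card_le_card ?_).trans (Finset.card_union_le _ _)
      intro v hv
      have hv2 := (mem_filter.1 hv).2
      by_cases hb : coefB e y.2 v = 0
      · refine mem_union_left _ ?_
        rw [hb, add_zero] at hv2
        exact mem_filter.2 ⟨mem_univ _, hv2⟩
      · exact mem_union_right _ (mem_filter.2 ⟨mem_univ _, hb⟩)
    have h8 := h1 A.card (by omega) (by omega)
    omega

end Pool.Agent.H2.SYM
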