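import Pool.Agent.H60.SYM.Targets

/-!
Gap-SETH for symmetric circuits: module IND (abstract induction over the gates).
-/

set_option autoImplicit false

namespace Pool.Agent.H2.SYM

open Finset
open Pool.Agent.H60.SYM

theorem zmod2_cases (c : ZMod 2) : c = 0 ∨ c = 1 := by
  revert c
  decide

/-- a subset closed under addition and containing zero is a subspace over `ZMod 2` -/
def mkSub {V : Type} [AddCommGroup V] [Module (ZMod 2) V] (p : V → Prop) (h0 : p 0)
    (hadd : ∀ v w, p v → p w → p (v + w)) : Submodule (ZMod 2) V where
  carrier := {v | p v}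
  zero_mem' := h0
  add_mem' := fun {v w} hv hw => hadd v w hv hw
  smul_mem' := fun c v hv => by
    rcases zmod2_cases c with rfl | rfl
    · rw [zero_smul]
      exact h0
    · rw [one_smul]
      exact hv

theorem mem_mkSub {V : Type} [AddCommGroup V] [Module (ZMod 2) V] {p : V → Prop} {h0 : p 0}
    {hadd : ∀ v w, p v → p w → p (v + w)} {v : V} : v ∈ mkSub p h0 hadd ↔ p v := Iff.rfl

theorem ind (hVAL : T_VAL) (hAUT : T_AUT) (hEXT : T_EXT) : T_IND := by
  classical
  intro I s C V Y _ _ _ _ _ act N cc w θ φ₀ φ₁ hact hact0 hlift hw0 hwadd hgap hinp hroot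
  obtain ⟨hA1, hA2, hA3, _⟩ := hAUT I s C
  have hcomp : ∀ v v', act v ∘ act v' = act (v + v') := by
    intro v v'
    funext i
    exact (hact v v' i).symm
  have hE0 : C.Extends (act 0) 1 := by
    have : act 0 = fun i => i := funext hact0
    rw [this]
    exact hA1
  have hEmul : ∀ v v' a a', C.Extends (act v) a → C.Extends (act v') a' →
      C.Extends (act (v + v')) (a * a') := by
    intro v v' a a' h h'
    rw [← hcomp]
    exact hA2 _ _ _ _ h h'
  have hneg : ∀ v : V, -v = v := by
    intro v
    rw [neg_eq_iff_add_eq_zero, ← two_smul (ZMod 2) v]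
    have : (2 : ZMod 2) = 0 := by decide
    rw [this, zero_smul]
  have hEinv : ∀ v a, C.Extends (act v) a → C.Extends (act v) a⁻¹ := by
    intro v a h
    refine hA3 (act v) (act v) a (fun i => ?_) h
    rw [← hact]
    have : v + v = 0 := by
      nth_rw 1 [← hneg v]
      exact neg_add_cancel v
    rw [this]
    exact hact0 i
  -- stabilisers
  let St : Fin s → Submodule (ZMod 2) V := fun g =>
    mkSub (fun v => ∃ a, C.Extends (act v) a ∧ a g = g) ⟨1, hE0, rfl⟩ (by
      rintro v v' ⟨a, ha, hg⟩ ⟨a', ha', hg'⟩
      refine ⟨a * a', hEmul v v' a a' ha ha', ?_⟩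
      rw [Equiv.Perm.mul_apply, hg', hg])
  have hSt : ∀ g v, v ∈ St g ↔ ∃ a, C.Extends (act v) a ∧ a g = g := fun g v => Iff.rfl
  have hia : ∀ (a : Equiv.Perm (Fin s)) (x : Fin s), a⁻¹ (a x) = x := fun a x =>
    a.symm_apply_apply x
  have hStmove : ∀ v a h, C.Extends (act v) a → St (a h) = St h := by
    have key : ∀ v a h, C.Extends (act v) a → St h ≤ St (a h) := by
      intro v a h ha u hu
      obtain ⟨b, hb, hbh⟩ := (hSt h u).1 hu
      refine (hSt (a h) u).2 ⟨a * b * a⁻¹, ?_, ?_⟩
      · have h1 := hEmul _ _ _ _ (hEmul v u a b ha hb) (hEinv v a ha)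
        have e : v + u + v = u := by
          rw [add_comm v u, add_assoc]
          have : v + v = 0 := by
            nth_rw 1 [← hneg v]
            exact neg_add_cancel v
          rw [this, add_zero]
        rw [e] at h1
        exact h1
      · rw [Equiv.Perm.mul_apply, Equiv.Perm.mul_apply, hia, hbh]
    intro v a h ha
    refine le_antisymm ?_ (key v a h ha)
    have h1 := key v a⁻¹ (a h) (hEinv v a ha)
    rw [hia] at h1
    exact h1
  -- conditions at a gate
  let Yg : Fin s → Submodule (ZMod 2) Y := fun g =>
    mkSub (fun y => w y ≤ θ ∧ ∀ v ∈ St g, N y v = 0) ⟨by rw [hw0]; exact Nat.zero_le _,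
      fun v _ => by rw [map_zero, LinearMap.zero_apply]⟩ (by
      rintro y y' ⟨h1, h2⟩ ⟨h1', h2'⟩
      have hz : ∀ v ∈ St g, N (y + y') v = 0 := by
        intro v hv
        rw [map_add, LinearMap.add_apply, h2 v hv, h2' v hv, add_zero]
      refine ⟨?_, hz⟩
      by_contra hc
      push Not at hc
      have hle : w (y + y') ≤ 2 * θ := (hwadd y y').trans (by omega)
      obtain ⟨v, a, ha, hag, hne⟩ := hgap g (y + y') hc hle
      exact hne (hz v ⟨a, ha, hag⟩))
  have hYg : ∀ g y, y ∈ Yg g ↔ (w y ≤ θ ∧ ∀ v ∈ St g, N y v = 0) := fun g y => Iff.rfl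
  have hYeq : ∀ g h, St g = St h → ∀ y, y ∈ Yg g ↔ y ∈ Yg h := by
    intro g h he y
    rw [hYg, hYg, he]
  -- the claim
  have claim : ∀ (k : ℕ) (g : Fin s), (g : ℕ) = k → ∀ v a, C.Extends (act v) a →
      (∀ y ∈ Yg g, N y v = cc y) → C.val φ₀ g = C.val φ₁ (a g) := by
    intro k
    induction k using Nat.strong_induction_on with
    | _ k ih =>
      intro g hgk v a ha hgood
      rcases hcase : C.inp g with _ | i
      · -- ordinary gates
        have hag : C.inp (a g) = none := by
          rw [ha.2.1 g, hcase]
          rfl
        rw [(hVAL I s C φ₀ g).2 hcase, (hVAL I s C φ₁ (a g)).2 hag, ha.2.2.1 g]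
        congr 1
        funext c
        -- substitute `h = a h'`
        have hsub : (univ.filter fun h : Fin s => C.lab (a g) h = c + 1 ∧ C.val φ₁ h = true).card =
            (univ.filter fun h : Fin s => C.lab g h = c + 1 ∧ C.val φ₁ (a h) = true).card := by
          refine (Finset.card_equiv a fun h => ?_).symm
          simp only [mem_filter, mem_univ, true_and]
          rw [ha.2.2.2 g h]
        rw [hsub]
        -- fibres
        rw [Finset.card_eq_sum_card_image St, Finset.card_eq_sum_card_image St]
        set S₀ := univ.filter fun h : Fin s => C.lab g h = c + 1 ∧ C.val φ₀ h = true with hS₀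
        set S₁ := univ.filter fun h : Fin s => C.lab g h = c + 1 ∧ C.val φ₁ (a h) = true with hS₁
        have hfib : ∀ W : Submodule (ZMod 2) V,
            (S₀.filter fun h => St h = W).card = (S₁.filter fun h => St h = W).card := by
          intro W
          by_cases hne : ∃ h₀, C.lab g h₀ = c + 1 ∧ St h₀ = W
          · obtain ⟨h₀, hl₀, hW₀⟩ := hne
            obtain ⟨v', hv', hv2⟩ := hEXT V Y (St g) (Yg h₀) N (cc - N.flip v) (by
              intro y hy hz
              have := hgood y ((hYg g y).2 ⟨((hYg h₀ y).1 hy).1, hz⟩)
              rw [LinearMap.sub_apply, LinearMap.flip_apply, this, sub_self])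
            obtain ⟨a', ha', hag'⟩ := (hSt g v').1 hv'
            have hval : ∀ h, C.lab g h = c + 1 → St h = W →
                C.val φ₀ h = C.val φ₁ (a (a' h)) := by
              intro h hl hW
              have hlt : h < g := C.acyclic g h (by rw [hl]; omega)
              have h1 := ih (h : ℕ) (by rw [← hgk]; exact hlt) h rfl (v + v') (a * a')
                (hEmul v v' a a' ha ha') (by
                  intro y hy
                  have hy₀ : y ∈ Yg h₀ := (hYeq h h₀ (by rw [hW, hW₀]) y).1 hy
                  have := hv2 y hy₀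
                  rw [LinearMap.sub_apply, LinearMap.flip_apply] at this
                  rw [map_add, this]
                  abel)
              rw [Equiv.Perm.mul_apply] at h1
              exact h1
            refine Finset.card_equiv a' fun h => ?_
            simp only [hS₀, hS₁, mem_filter, mem_univ, true_and]
            have e1 : C.lab g (a' h) = C.lab g h := by
              have := ha'.2.2.2 g h
              rw [hag'] at this
              exact this
            have e2 : St (a' h) = St h := hStmove v' a' h ha'
            rw [e1, e2]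
            constructor
            · rintro ⟨⟨h1, h2⟩, h3⟩
              exact ⟨⟨h1, by rw [← hval h h1 h3]; exact h2⟩, h3⟩
            · rintro ⟨⟨h1, h2⟩, h3⟩
              exact ⟨⟨h1, by rw [hval h h1 h3]; exact h2⟩, h3⟩
          · push Not at hne
            have e1 : (S₀.filter fun h => St h = W) = ∅ := by
              rw [Finset.filter_eq_empty_iff]
              intro h hh
              exact hne h (by simpa [hS₀] using (mem_filter.1 hh).2.1)
            have e2 : (S₁.filter fun h => St h = W) = ∅ := by
              rw [Finset.filter_eq_empty_iff]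
              intro h hh
              exact hne h (by simpa [hS₁] using (mem_filter.1 hh).2.1)
            rw [e1, e2]
        have h1 : ∀ S : Finset (Fin s), ∑ b ∈ S.image St, (S.filter fun h => St h = b).card =
            ∑ b ∈ (univ : Finset (Fin s)).image St, (S.filter fun h => St h = b).card := by
          intro S
          refine Finset.sum_subset (Finset.image_subset_image (Finset.subset_univ S)) ?_
          intro b _ hb
          rw [Finset.card_eq_zero, Finset.filter_eq_empty_iff]
          intro h hh hb'
          exact hb (Finset.mem_image.2 ⟨h, hh, hb'⟩)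
        rw [h1, h1]
        exact Finset.sum_congr rfl fun W _ => hfib W
      · -- input gates
        have hag : C.inp (a g) = some (act v i) := by
          rw [ha.2.1 g, hcase]
          rfl
        rw [(hVAL I s C φ₀ g).1 i hcase, (hVAL I s C φ₁ (a g)).1 _ hag]
        refine hinp i v fun y hy hz => hgood y ((hYg g y).2 ⟨hy, fun u hu => hz u ?_⟩)
        obtain ⟨a', ha', hag'⟩ := (hSt g u).1 hu
        have h1 := ha'.2.1 g
        rw [hag', hcase] at h1
        exact (Option.some.inj h1).symm
  have hfin := claim _ C.out rfl 0 1 hE0 (by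
    intro y hy
    obtain ⟨h1, h2⟩ := (hYg _ y).1 hy
    have hN : N y = 0 := by
      refine LinearMap.ext fun v => ?_
      obtain ⟨a, ha⟩ := hlift v
      rw [LinearMap.zero_apply]
      exact h2 v ⟨a, ha, ha.1⟩
    rw [hN, LinearMap.zero_apply]
    exact (hroot y h1 hN).symm)
  exact hfin

end Pool.Agent.H2.SYM
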