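import Pool.Agent.H2.SYM.IND

/-!
Gap-SETH for symmetric circuits: module ORB (orbit counting).
-/

set_option autoImplicit false

namespace Pool.Agent.H2.SYM

open Finset
open Pool.Agent.H60.SYM

theorem neg_eq_self2 {V : Type} [AddCommGroup V] [Module (ZMod 2) V] (v : V) : -v = v := by
  rw [neg_eq_iff_add_eq_zero, ← two_smul (ZMod 2) v]
  have : (2 : ZMod 2) = 0 := by decide
  rw [this, zero_smul]

theorem card_dualAnn {V : Type} [AddCommGroup V] [Module (ZMod 2) V] [Finite V]
    (W : Submodule (ZMod 2) V) : Nat.card W.dualAnnihilator = Nat.card (V ⧸ W) := by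
  rw [← Nat.card_congr (Submodule.dualQuotEquivDualAnnihilator W).toEquiv,
    Module.natCard_eq_pow_finrank (K := ZMod 2) (V := Module.Dual (ZMod 2) (V ⧸ W)),
    Module.natCard_eq_pow_finrank (K := ZMod 2) (V := V ⧸ W), Subspace.dual_finrank_eq]

theorem orb : T_ORB := by
  classical
  intro s V _ _ _ L hL0 hLmul hLinv hLex Ω hΩ
  have hia : ∀ (a : Equiv.Perm (Fin s)) (x : Fin s), a⁻¹ (a x) = x := fun a x =>
    a.symm_apply_apply x
  -- the equivalence relation
  let R : Setoid (Fin s) :=
    { r := fun g h => ∃ v a, L v a ∧ a g = h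
      iseqv :=
        { refl := fun g => ⟨0, 1, hL0, rfl⟩
          symm := by
            rintro g h ⟨v, a, ha, rfl⟩
            exact ⟨v, a⁻¹, hLinv v a ha, hia a g⟩
          trans := by
            rintro g h k ⟨v, a, ha, rfl⟩ ⟨w, b, hb, rfl⟩
            exact ⟨w + v, b * a, hLmul w v b a hb ha, rfl⟩ } }
  let St : Fin s → Submodule (ZMod 2) V := fun g =>
    mkSub (fun v => ∃ a, L v a ∧ a g = g) ⟨1, hL0, rfl⟩ (by
      rintro v v' ⟨a, ha, hg⟩ ⟨a', ha', hg'⟩
      refine ⟨a * a', hLmul v v' a a' ha ha', ?_⟩
      rw [Equiv.Perm.mul_apply, hg', hg])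
  have hSt : ∀ g v, v ∈ St g ↔ ∃ a, L v a ∧ a g = g := fun g v => Iff.rfl
  have key : ∀ v a h, L v a → St h ≤ St (a h) := by
    intro v a h ha u hu
    obtain ⟨b, hb, hbh⟩ := (hSt h u).1 hu
    refine (hSt (a h) u).2 ⟨a * b * a⁻¹, ?_, ?_⟩
    · have h1 := hLmul _ _ _ _ (hLmul v u a b ha hb) (hLinv v a ha)
      have e : v + u + v = u := by
        rw [add_comm v u, add_assoc]
        have : v + v = 0 := by
          nth_rw 1 [← neg_eq_self2 v]
          exact neg_add_cancel v
        rw [this, add_zero]
      rw [e] at h1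
      exact h1
    · rw [Equiv.Perm.mul_apply, Equiv.Perm.mul_apply, hia, hbh]
  have hStR : ∀ g h, R.r g h → St h ≤ St g := by
    rintro g h ⟨v, a, ha, rfl⟩
    have h1 := key v a⁻¹ (a g) (hLinv v a ha)
    rw [hia] at h1
    exact h1
  -- the gate of a functional
  rcases Ω.eq_empty_or_nonempty with rfl | ⟨ω₀, hω₀⟩
  · rw [Finset.card_empty]
    exact Nat.zero_le _
  obtain ⟨g₀, _⟩ := hΩ ω₀ hω₀
  have : Nonempty (Fin s) := ⟨g₀⟩
  choose! gate hgate using hΩ
  let cls : (V →ₗ[ZMod 2] ZMod 2) → Quotient R := fun ω => Quotient.mk R (gate ω)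
  have hfib : ∀ q : Quotient R, (Ω.filter fun ω => cls ω = q).card ≤
      ((univ : Finset (Fin s)).filter fun h => Quotient.mk R h = q).card := by
    intro q
    set r : Fin s := q.out with hr
    have hrq : Quotient.mk R r = q := Quotient.out_eq q
    -- functionals of the class vanish on the stabiliser of `r`
    have h1 : (Ω.filter fun ω => cls ω = q).card ≤ Nat.card (St r).dualAnnihilator := by
      have hfin : Finite (St r).dualAnnihilator := by
        have : Finite (Module.Dual (ZMod 2) V) := Finite.of_injective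
          (fun (f : Module.Dual (ZMod 2) V) (v : V) => f v) DFunLike.coe_injective
        exact Subtype.finite
      have hmem : ∀ ω : {ω // ω ∈ Ω.filter fun ω => cls ω = q}, ω.1 ∈ (St r).dualAnnihilator := by
        rintro ⟨ω, hω⟩
        obtain ⟨h3, h4⟩ := mem_filter.1 hω
        rw [Submodule.mem_dualAnnihilator]
        intro v hv
        have h5 : R.r r (gate ω) := by
          have : Quotient.mk R r = Quotient.mk R (gate ω) := by rw [hrq, ← h4]
          exact Quotient.exact this
        have h6 : R.r (gate ω) r := R.iseqv.symm h5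
        obtain ⟨a, ha, hag⟩ := (hSt (gate ω) v).1 (hStR _ _ h6 hv)
        exact hgate ω h3 v a ha hag
      rw [← Fintype.card_coe, ← Nat.card_eq_fintype_card]
      refine Nat.card_le_card_of_injective
        (fun ω : {ω // ω ∈ Ω.filter fun ω => cls ω = q} =>
          (⟨ω.1, hmem ω⟩ : (St r).dualAnnihilator)) ?_
      intro x y hxy
      exact Subtype.ext (congrArg (fun z : (St r).dualAnnihilator => z.1) hxy)
    have h2 : Nat.card (V ⧸ St r) ≤
        ((univ : Finset (Fin s)).filter fun h => Quotient.mk R h = q).card := by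
      choose lift hlift using hLex
      rw [← Fintype.card_coe, ← Nat.card_eq_fintype_card]
      refine Nat.card_le_card_of_injective (fun x : V ⧸ St r =>
        (⟨lift x.out r, ?_⟩ : {h // h ∈ (univ : Finset (Fin s)).filter
          fun h => Quotient.mk R h = q})) ?_
      · rw [mem_filter]
        refine ⟨mem_univ _, ?_⟩
        rw [← hrq]
        refine Quotient.sound (R.iseqv.symm ?_)
        exact ⟨x.out, lift x.out, hlift _, rfl⟩
      · intro x y hxy
        have hxy' : lift x.out r = lift y.out r := congrArg Subtype.val hxy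
        have h3 : x.out - y.out ∈ St r := by
          rw [hSt]
          refine ⟨(lift y.out)⁻¹ * lift x.out, ?_, ?_⟩
          · have := hLmul _ _ _ _ (hLinv _ _ (hlift y.out)) (hlift x.out)
            rw [sub_eq_add_neg, neg_eq_self2, add_comm]
            exact this
          · rw [Equiv.Perm.mul_apply, hxy', hia]
        have h4 := (Submodule.Quotient.eq (St r)).2 h3
        rw [← Quotient.out_eq x, ← Quotient.out_eq y]
        exact h4
    rw [card_dualAnn] at h1
    exact h1.trans h2
  calc Ω.card = ∑ q : Quotient R, (Ω.filter fun ω => cls ω = q).card :=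
        Finset.card_eq_sum_card_fiberwise (fun _ _ => Finset.mem_coe.2 (mem_univ _))
    _ ≤ ∑ q : Quotient R, ((univ : Finset (Fin s)).filter fun h => Quotient.mk R h = q).card :=
        Finset.sum_le_sum fun q _ => hfib q
    _ = (univ : Finset (Fin s)).card :=
        (Finset.card_eq_sum_card_fiberwise (fun _ _ => Finset.mem_coe.2 (mem_univ _))).symm
    _ = s := by rw [Finset.card_univ, Fintype.card_fin]

end Pool.Agent.H2.SYM
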